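import Mathlib
import Pool.Agent.Helper255.BN.Final

/-!
# The Bollobás–Nikiforov conjecture on the two largest adjacency eigenvalues

For a finite simple graph `G` let `i ≠ j` index the two largest eigenvalues (with multiplicity) of
its adjacency matrix. If `G` is not complete, then `λ₁² + λ₂² ≤ 2 (1 - 1/ω(G)) m`; equivalently, if
`G` has no clique on `r + 1` vertices and at least `r + 1` vertices, `r ≥ 1`, then
`λ₁² + λ₂² ≤ 2 (1 - 1/r) m`.

The proof has two steps.
(1) A planar inequality (`Pool.Agent.Helper255.BN.planar_ineq`): for vectors `v_i = (x_i, y_i)` in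
the half plane `x ≥ 0` and a graph without a clique on `r + 1` vertices, the sum over adjacent
ordered pairs of `max(0, ⟨v_i, v_j⟩)²` is at most `(1 - 1/r)` times the sum over all ordered pairs
of `⟨v_i, v_j⟩²`. It is proved by a rotating frame: the difference of the two sides is written
through integrals and finitely many jumps of quadratic forms `(1 - 1/r) (∑ f_i)² - ∑_{i ~ j} f_i f_j`
with nonnegative weights `f`, and each of these is nonnegative by the Motzkin–Straus theorem.
(2) The reduction: apply (1) to `x = √λ₁ · φ₁`, `y = √λ₂ · φ₂` with a nonnegative (Perron)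
eigenvector `φ₁` and use the Cauchy–Schwarz inequality. For a non-complete graph `λ₂ ≥ 0`.
-/
set_option autoImplicit false

namespace Pool.Agent.Results.MP_cb3f02_co.BollobasNikiforov

/-- **Bollobás–Nikiforov conjecture**, in both usual forms. `i` and `j` index the largest and the
second largest eigenvalue of the adjacency matrix. -/
theorem result {V : Type*} [Fintype V] [DecidableEq V] (G : SimpleGraph V) [DecidableRel G.Adj]
    (hA : (G.adjMatrix ℝ).IsHermitian) (i j : V) (hij : i ≠ j)
    (h1 : hA.eigenvalues j ≤ hA.eigenvalues i)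
    (h2 : ∀ k, k ≠ i → hA.eigenvalues k ≤ hA.eigenvalues j) :
    (G ≠ ⊤ →
      hA.eigenvalues i ^ 2 + hA.eigenvalues j ^ 2
        ≤ 2 * (1 - 1 / (G.cliqueNum : ℝ)) * (G.edgeFinset.card : ℝ)) ∧
    (∀ r : ℕ, 1 ≤ r → G.CliqueFree (r + 1) → r + 1 ≤ Fintype.card V →
      hA.eigenvalues i ^ 2 + hA.eigenvalues j ^ 2
        ≤ 2 * (1 - 1 / (r : ℝ)) * (G.edgeFinset.card : ℝ)) := by
  classical
  refine ⟨fun hG => ?_, fun r hr hC hcard => ?_⟩
  · refine Pool.Agent.Helper255.BN.Final.main_noncomplete G hG G.cliqueNum ?_ ?_ hA i j hij h1 h2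
    · have h3 : G.IsClique (({i} : Finset V) : Set V) := by simp
      simpa using h3.card_le_cliqueNum
    · intro s hs
      have h3 := hs.isClique.card_le_cliqueNum
      have h4 := hs.card_eq
      omega
  · refine Pool.Agent.Helper255.BN.Final.main_noncomplete G ?_ r hr hC hA i j hij h1 h2
    rintro rfl
    obtain ⟨s, -, hs⟩ := Finset.exists_subset_card_eq
      (s := (Finset.univ : Finset V)) (n := r + 1) (by simpa using hcard)
    refine hC s ⟨?_, hs⟩
    intro a _ b _ hab
    simpa using hab

end Pool.Agent.Results.MP_cb3f02_co.BollobasNikiforov
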